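import Pool.Agent.Lib.MP_e6ed9e_al.Index

/-!
A transitive group with a nontrivial block is non-spreading.
-/

namespace SpreadPerm

open Finset MulAction
open scoped Pointwise

variable {G : Type*} [Group G] {Ω : Type*} [Fintype Ω] [MulAction G Ω]

theorem nonspreading_of_block [MulAction.IsPretransitive G Ω] (B : Set Ω) (hB : IsBlock G B)
    (h1 : 1 < B.ncard) (h2 : B ≠ Set.univ) : NonSpreading G Ω := by
  classical
  have hBne : B.Nonempty := by
    rw [Set.nonempty_iff_ne_empty]
    rintro rfl
    simp at h1
  have hprod := hB.ncard_block_mul_ncard_orbit_eq hBne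
  rw [Nat.card_eq_fintype_card] at hprod
  -- every translate is nonempty; choose a point in it
  have hne : ∀ C : orbit G B, (C : Set Ω).Nonempty := by
    rintro ⟨_, ⟨g, rfl⟩⟩
    exact hBne.smul_set
  choose c hc using hne
  have hdisj : ∀ (C D : orbit G B) (x : Ω), x ∈ (C : Set Ω) → x ∈ (D : Set Ω) → C = D := by
    rintro ⟨_, ⟨g, rfl⟩⟩ ⟨_, ⟨h, rfl⟩⟩ x hx hy
    refine Subtype.ext ?_
    exact hB.smul_eq_smul_of_nonempty ⟨x, hx, hy⟩
  have hcinj : Function.Injective c := by
    intro C D h
    exact hdisj C D (c C) (hc C) (h ▸ hc D)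
  -- the transversal
  let A : Ω → ℕ := fun i => if i ∈ Set.range c then 1 else 0
  let b : Ω → ℕ := fun i => if i ∈ B then 1 else 0
  have hfin : Finite (orbit G B) := Set.toFinite _
  have hAsum : ∑ i, A i = (orbit G B).ncard := by
    simp only [A]
    rw [← Finset.card_filter]
    have : (Set.range c).ncard = (orbit G B).ncard := by
      rw [← Set.image_univ, Set.ncard_image_of_injective _ hcinj, Set.ncard_univ]
      rfl
    rw [← this, Set.ncard_eq_toFinset_card']
    congr 1
    ext i; simp
  have hAB : ∀ g : G, ∑ i, A i * b (g⁻¹ • i) = 1 := by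
    intro g
    set C : orbit G B := ⟨g • B, ⟨g, rfl⟩⟩ with hC
    rw [Finset.sum_eq_single (c C)]
    · have h1 : A (c C) = 1 := by
        simp only [A]
        rw [if_pos ⟨C, rfl⟩]
      have h2 : b (g⁻¹ • c C) = 1 := by
        have := hc C
        rw [hC] at this
        have h3 : g⁻¹ • c C ∈ B := Set.mem_smul_set_iff_inv_smul_mem.1 this
        simp [b, h3]
      rw [h1, h2]
    · intro i _ hi
      by_contra hne
      have hA : A i ≠ 0 := fun h => hne (by rw [h, zero_mul])
      have hb : b (g⁻¹ • i) ≠ 0 := fun h => hne (by rw [h, mul_zero])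
      have hi1 : i ∈ Set.range c := by
        by_contra h
        exact hA (by simp only [A]; rw [if_neg h])
      have hi2 : g⁻¹ • i ∈ B := by
        by_contra h
        exact hb (by simp only [b]; rw [if_neg h])
      obtain ⟨D, rfl⟩ := hi1
      have : c D ∈ (C : Set Ω) := by
        rw [hC]; exact Set.mem_smul_set_iff_inv_smul_mem.2 hi2
      exact hi (congrArg c (hdisj D C (c D) (hc D) this))
    · intro h; exact absurd (Finset.mem_univ _) h
  have hBlt : B.ncard < Fintype.card Ω := by
    rw [← Nat.card_eq_fintype_card]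
    exact Set.ncard_lt_card h2
  have ht : 1 < (orbit G B).ncard := by
    by_contra hcon
    have h3 : (orbit G B).ncard ≤ 1 := by omega
    have : B.ncard * (orbit G B).ncard ≤ B.ncard * 1 := Nat.mul_le_mul_left _ h3
    omega
  have ht2 : (orbit G B).ncard < Fintype.card Ω := by
    have h0 : 0 < (orbit G B).ncard := by omega
    have : 2 * (orbit G B).ncard ≤ B.ncard * (orbit G B).ncard := Nat.mul_le_mul_right _ h1
    omega
  have triv_aux : ∀ (S : Set Ω), 1 < S.ncard → S.ncard < Fintype.card Ω →
      ¬ Triv (fun i => if i ∈ S then 1 else 0 : Ω → ℕ) := by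
    intro S hS1 hS2
    rintro (⟨d, hd⟩ | ⟨i, hi⟩)
    · obtain ⟨s, hs⟩ : S.Nonempty := by
        rw [Set.nonempty_iff_ne_empty]
        rintro rfl
        simp at hS1
      have hd1 : d = 1 := by rw [← hd s]; simp [hs]
      have : S = Set.univ := by
        ext i
        have := hd i
        rw [hd1] at this
        by_cases hi : i ∈ S
        · simp [hi]
        · simp [hi] at this
      rw [this, Set.ncard_univ, Nat.card_eq_fintype_card] at hS2
      exact lt_irrefl _ hS2
    · obtain ⟨x, hx, y, hy, hxy⟩ := (Set.one_lt_ncard (Set.toFinite S)).1 hS1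
      have hx' := (hi x).1 (by simp [hx])
      have hy' := (hi y).1 (by simp [hy])
      exact hxy (hx'.trans hy'.symm)
  refine ⟨A, b, 1, one_pos, ?_, triv_aux B h1 hBlt, hAB, ?_, ?_⟩
  · have := triv_aux (Set.range c) ?_ ?_
    · intro hA
      apply this
      convert hA
    · rw [← Set.image_univ, Set.ncard_image_of_injective _ hcinj, Set.ncard_univ]
      exact ht
    · rw [← Set.image_univ, Set.ncard_image_of_injective _ hcinj, Set.ncard_univ]
      exact ht2
  · intro i
    simp only [b]
    split_ifs <;> simp
  · rw [hAsum, ← hprod]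
    exact Dvd.intro_left _ rfl

/-- Point stabilizers of a spreading group are maximal subgroups. -/
theorem isCoatom_stabilizer_of_spreading [MulAction.IsPretransitive G Ω] (hG : Spreading G Ω)
    (hn : 2 ≤ Fintype.card Ω) (x : Ω) : IsCoatom (stabilizer G x) := by
  have : Nontrivial Ω := Fintype.one_lt_card_iff_nontrivial.1 hn
  rw [isCoatom_stabilizer_iff_preprimitive]
  refine { isTrivialBlock_of_isBlock := fun {B} hB => ?_ }
  by_contra hcon
  simp only [IsTrivialBlock, not_or] at hcon
  refine hG (nonspreading_of_block B hB ?_ hcon.2)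
  by_contra h
  apply hcon.1
  rw [← Set.ncard_le_one_iff_subsingleton]
  omega

end SpreadPerm
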