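import Mathlib

/-!
Bochert's bound: a permutation group without 3-cycles has index at least `⌈m/2⌉!`.
-/

namespace SpreadPerm

open Finset Equiv.Perm

variable {α : Type*} [Fintype α] [DecidableEq α]

omit [Fintype α] [DecidableEq α] in
lemma papply_inv (f : Equiv.Perm α) (x : α) : f (f⁻¹ x) = x := f.apply_symm_apply x

omit [Fintype α] [DecidableEq α] in
lemma pinv_apply (f : Equiv.Perm α) (x : α) : f⁻¹ (f x) = x := f.symm_apply_apply x

/-- The commutator of two permutations whose supports meet in exactly one point. -/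
lemma commutator_isThreeCycle (g h : Equiv.Perm α) (a : α) (hga : g a ≠ a) (hha : h a ≠ a)
    (hdisj : ∀ x, x ≠ a → g x = x ∨ h x = x) : (g * h * g⁻¹ * h⁻¹).IsThreeCycle := by
  -- basic facts
  have hb : g (h a) = h a := by
    rcases hdisj (h a) hha with h1 | h1
    · exact h1
    · exact absurd (h.injective h1) hha
  have hc : h (g a) = g a := by
    rcases hdisj (g a) hga with h1 | h1
    · exact absurd (g.injective h1) hga
    · exact h1
  have hcinv : h⁻¹ (g a) = g a := by rw [Equiv.Perm.inv_eq_iff_eq, hc]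
  have hbc : h a ≠ g a := by
    intro e
    rw [← e] at hc
    exact hha (h.injective hc)
  have hgia : g⁻¹ a ≠ a := by
    intro e
    apply hga
    rw [Equiv.Perm.inv_eq_iff_eq] at e
    exact e.symm
  have hhia : h⁻¹ a ≠ a := by
    intro e
    apply hha
    rw [Equiv.Perm.inv_eq_iff_eq] at e
    exact e.symm
  have hgib : g⁻¹ (h a) = h a := by rw [Equiv.Perm.inv_eq_iff_eq, hb]
  -- `h` fixes `g⁻¹ a`
  have hhgi : h (g⁻¹ a) = g⁻¹ a := by
    rcases hdisj (g⁻¹ a) hgia with h1 | h1
    · exfalso
      rw [papply_inv] at h1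
      exact hgia h1.symm
    · exact h1
  -- `g` fixes `h⁻¹ a`
  have hghi : g (h⁻¹ a) = h⁻¹ a := by
    rcases hdisj (h⁻¹ a) hhia with h1 | h1
    · exact h1
    · exfalso
      rw [papply_inv] at h1
      exact hhia h1.symm
  have hghi' : g⁻¹ (h⁻¹ a) = h⁻¹ a := by rw [Equiv.Perm.inv_eq_iff_eq, hghi]
  have key : g * h * g⁻¹ * h⁻¹ = Equiv.swap a (h a) * Equiv.swap a (g a) := by
    ext z
    simp only [Equiv.Perm.coe_mul, Function.comp_apply]
    by_cases hz1 : z = h a
    · subst hz1
      rw [pinv_apply, Equiv.swap_apply_of_ne_of_ne hha hbc,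
        Equiv.swap_apply_right, hhgi, papply_inv]
    by_cases hz2 : z = g a
    · subst hz2
      rw [hcinv, pinv_apply, hb, Equiv.swap_apply_right, Equiv.swap_apply_left]
    by_cases hz3 : z = a
    · subst hz3
      rw [hghi', papply_inv, Equiv.swap_apply_left,
        Equiv.swap_apply_of_ne_of_ne hga (Ne.symm hbc)]
    · rw [Equiv.swap_apply_of_ne_of_ne hz3 hz2, Equiv.swap_apply_of_ne_of_ne hz3 hz1]
      -- generic point
      have hy : h⁻¹ z ≠ a := by
        intro e
        rw [Equiv.Perm.inv_eq_iff_eq] at e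
        exact hz1 e
      rcases hdisj (h⁻¹ z) hy with h1 | h1
      · have h2 : g⁻¹ (h⁻¹ z) = h⁻¹ z := by rw [Equiv.Perm.inv_eq_iff_eq, h1]
        rw [h2, papply_inv]
        rcases hdisj z hz3 with h3 | h3
        · exact h3
        · have h4 : h⁻¹ z = z := by rw [Equiv.Perm.inv_eq_iff_eq, h3]
          rw [h4] at h1
          exact h1
      · rw [papply_inv] at h1
        -- `h⁻¹ z = z`
        rw [← h1]
        have hw : g⁻¹ z ≠ a := by
          intro e
          rw [Equiv.Perm.inv_eq_iff_eq] at e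
          exact hz2 e
        rcases hdisj (g⁻¹ z) hw with h3 | h3
        · rw [papply_inv] at h3
          rw [← h3]
          have h5 : h z = z := (Equiv.Perm.inv_eq_iff_eq.1 h1.symm).symm
          rw [h5]
          exact (Equiv.Perm.inv_eq_iff_eq.1 h3.symm).symm
        · rw [h3, papply_inv]
  rw [key]
  exact isThreeCycle_swap_mul_swap_same (Ne.symm hha) (Ne.symm hga) hbc

/-- **Bochert's bound.** -/
theorem bochert (H : Subgroup (Equiv.Perm α)) (h3 : ∀ g ∈ H, ¬ g.IsThreeCycle) :
    Nat.card H * ((Fintype.card α + 1) / 2).factorial ≤ (Fintype.card α).factorial := by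
  classical
  -- a smallest base
  have hex : ∃ r, ∃ Γ : Finset α, Γ.card = r ∧ ∀ h ∈ H, (∀ x ∈ Γ, h x = x) → h = 1 :=
    ⟨_, Finset.univ, rfl, fun h _ hx => Equiv.ext fun x => hx x (Finset.mem_univ x)⟩
  obtain ⟨Γ, hΓc, hΓ⟩ := Nat.find_spec hex
  have hmin : ∀ Γ' : Finset α, Γ'.card < Γ.card → ∃ h ∈ H, (∀ x ∈ Γ', h x = x) ∧ h ≠ 1 := by
    intro Γ' hlt
    by_contra hcon
    push Not at hcon
    rw [hΓc] at hlt
    exact Nat.find_min hex hlt ⟨Γ', rfl, hcon⟩
  have hhalf : 2 * Γ.card ≤ Fintype.card α := by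
    by_contra hcon
    push Not at hcon
    obtain ⟨h, hH, hfix, hne⟩ := hmin Γᶜ (by rw [Finset.card_compl]; omega)
    obtain ⟨a, ha⟩ : ∃ a, h a ≠ a := by
      by_contra hall
      push Not at hall
      exact hne (Equiv.ext hall)
    have haΓ : a ∈ Γ := by
      by_contra hna
      exact ha (hfix a (Finset.mem_compl.2 hna))
    obtain ⟨g, hgH, hgfix, hgne⟩ := hmin (Γ.erase a) (Finset.card_erase_lt_of_mem haΓ)
    have hga : g a ≠ a := by
      intro e
      apply hgne
      refine hΓ g hgH fun x hx => ?_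
      by_cases hxa : x = a
      · rw [hxa]; exact e
      · exact hgfix x (Finset.mem_erase.2 ⟨hxa, hx⟩)
    refine h3 (g * h * g⁻¹ * h⁻¹)
      (H.mul_mem (H.mul_mem (H.mul_mem hgH hH) (H.inv_mem hgH)) (H.inv_mem hH)) ?_
    refine commutator_isThreeCycle g h a hga ha fun x hx => ?_
    by_cases hxΓ : x ∈ Γ
    · left; exact hgfix x (Finset.mem_erase.2 ⟨hx, hxΓ⟩)
    · right; exact hfix x (Finset.mem_compl.2 hxΓ)
  -- the restriction to the base is injective
  have hcard : Nat.card H ≤ (Fintype.card α).descFactorial Γ.card := by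
    have hinj : Function.Injective (fun h : H => (⟨fun x : Γ => (h : Equiv.Perm α) x,
        fun x y hxy => Subtype.ext ((h : Equiv.Perm α).injective hxy)⟩ : Γ ↪ α)) := by
      intro h h' heq
      have : (h'⁻¹ * h : Equiv.Perm α) = 1 := by
        refine hΓ _ (H.mul_mem (H.inv_mem h'.2) h.2) fun x hx => ?_
        have h1 : (h : Equiv.Perm α) x = (h' : Equiv.Perm α) x :=
          DFunLike.congr_fun heq ⟨x, hx⟩
        rw [Equiv.Perm.mul_apply, h1]
        exact pinv_apply _ _
      exact Subtype.ext (inv_mul_eq_one.1 this).symm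
    calc Nat.card H ≤ Nat.card (Γ ↪ α) := Nat.card_le_card_of_injective _ hinj
      _ = (Fintype.card α).descFactorial Γ.card := by
        rw [Nat.card_eq_fintype_card, Fintype.card_embedding_eq, Fintype.card_coe]
  calc Nat.card H * ((Fintype.card α + 1) / 2).factorial
      ≤ (Fintype.card α).descFactorial Γ.card * (Fintype.card α - Γ.card).factorial :=
        Nat.mul_le_mul hcard (Nat.factorial_le (by omega))
    _ = (Fintype.card α).factorial := by
        rw [mul_comm]
        exact Nat.factorial_mul_descFactorial (by omega)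

end SpreadPerm
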