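import Pool.Agent.Lib.MP_e6ed9e_al.Sym.Setup

/-!
Imprimitive stabilizers have exponentially large index: disjoint 3-cycles that cross the blocks.
-/

namespace SpreadPerm

open Finset Equiv.Perm MulAction
open scoped Pointwise

variable {α : Type*} [Fintype α] [DecidableEq α] {G : Subgroup (Equiv.Perm α)}
  {Ω : Type*} [Fintype Ω] [MulAction G Ω]

/-- The product of the 3-cycles `(i, ·)`, `i ∈ T`. -/
def rot {L : ℕ} (T : Finset (Fin L)) : Equiv.Perm (Fin L × Fin 3) :=
  Equiv.prodCongrRight fun i => if i ∈ T then finRotate 3 else 1

lemma sign_rot {L : ℕ} (T : Finset (Fin L)) : sign (rot T) = 1 := by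
  rw [rot, sign_prodCongrRight]
  refine Finset.prod_eq_one fun i _ => ?_
  split_ifs
  · rw [sign_finRotate]; rfl
  · exact map_one _

/-- **Crossing 3-cycles.** Let `r` be a relation on `α` preserved by the stabilizer `stab G x`, and
let `P` be an injective family of `L` triples such that the first and second points of a triple
are not related, although the first point is related to some point outside of the family, in a way
that cannot be shared. Then the degree is at least `2 ^ L`. -/
lemma two_pow_le_card (hG : alternatingGroup α ≤ G) [MulAction.IsPretransitive G Ω] (x : Ω)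
    (r : Setoid α) (hr : ∀ h ∈ stab G x, ∀ a b, r a b → r (h a) (h b))
    (L : ℕ) (P : Fin L × Fin 3 ↪ α) (rep : Fin L → α) (hrep : ∀ i, rep i ∉ Set.range P)
    (h1 : ∀ i, r (P (i, 0)) (rep i)) (h2 : ∀ i, ¬ r (P (i, 0)) (P (i, 1))) :
    2 ^ L ≤ Fintype.card Ω := by
  classical
  let s : Finset (Fin L) → G := fun T => ⟨(rot T).viaFintypeEmbedding P, hG (by
    rw [mem_alternatingGroup, viaFintypeEmbedding_sign, sign_rot])⟩
  have hs1 : ∀ (T : Finset (Fin L)) (i : Fin L) (j : Fin 3), i ∉ T →
      ((s T : G) : Equiv.Perm α) (P (i, j)) = P (i, j) := by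
    intro T i j hi
    show (rot T).viaFintypeEmbedding P (P (i, j)) = _
    rw [Equiv.Perm.viaFintypeEmbedding_apply_image]
    congr 1
    show (i, (if i ∈ T then finRotate 3 else 1) j) = (i, j)
    rw [if_neg hi]; rfl
  have hs2 : ∀ (T : Finset (Fin L)) (i : Fin L), i ∈ T →
      ((s T : G) : Equiv.Perm α) (P (i, 0)) = P (i, 1) := by
    intro T i hi
    show (rot T).viaFintypeEmbedding P (P (i, 0)) = _
    rw [Equiv.Perm.viaFintypeEmbedding_apply_image]
    congr 1
    show (i, (if i ∈ T then finRotate 3 else 1) 0) = (i, 1)
    rw [if_pos hi]; rfl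
  have hs3 : ∀ (T : Finset (Fin L)) (i : Fin L),
      ((s T : G) : Equiv.Perm α) (rep i) = rep i := by
    intro T i
    show (rot T).viaFintypeEmbedding P (rep i) = _
    exact Equiv.Perm.viaFintypeEmbedding_apply_notMem_range _ _ (hrep i)
  -- the translates of `x` are distinct
  have haux : ∀ T T' : Finset (Fin L), s T • x = s T' • x → ∀ i, i ∈ T' → i ∈ T := by
    intro T T' heq i hi
    by_contra hni
    have hmem : (((s T)⁻¹ * s T' : G) : Equiv.Perm α) ∈ stab G x := by
      rw [mem_stab, mul_smul, ← heq, inv_smul_smul]
    have hval : ∀ z w, ((s T' : G) : Equiv.Perm α) z = w → ((s T : G) : Equiv.Perm α) w = w →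
        (((s T)⁻¹ * s T' : G) : Equiv.Perm α) z = w := by
      intro z w e1 e2
      rw [Subgroup.coe_mul, Equiv.Perm.mul_apply, e1, Subgroup.coe_inv,
        Equiv.Perm.inv_eq_iff_eq, e2]
    have hx0 := hval _ _ (hs2 T' i hi) (hs1 T i 1 hni)
    have hx1 := hval _ _ (hs3 T' i) (hs3 T i)
    have h3 := hr _ hmem _ _ (h1 i)
    rw [hx0, hx1] at h3
    exact h2 i (r.trans (h1 i) (r.symm h3))
  have hinj : Function.Injective (fun T : Finset (Fin L) => s T • x) := by
    intro T T' heq
    ext i
    exact ⟨haux T' T heq.symm i, haux T T' heq i⟩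
  calc 2 ^ L = Fintype.card (Finset (Fin L)) := by rw [Fintype.card_finset, Fintype.card_fin]
    _ ≤ Fintype.card Ω := Fintype.card_le_of_injective _ hinj

omit [Fintype α] in
/-- Choosing the triples greedily. `N` is the set of the points that are not representatives. -/
lemma exists_triples (r : Setoid α) (N : Finset α) (a : ℕ) (ha : 3 ≤ a)
    (hcl : ∀ U ⊆ N, (∀ y ∈ U, ∀ z ∈ U, r y z) → U.card < a) (L : ℕ) (hL : 3 * L + a ≤ N.card + 3) :
    ∃ P : Fin L × Fin 3 ↪ α, (∀ q, P q ∈ N) ∧ ∀ i, ¬ r (P (i, 0)) (P (i, 1)) := by
  classical
  induction L with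
  | zero => exact ⟨⟨fun q => q.1.elim0, fun q => q.1.elim0⟩, fun q => q.1.elim0, fun i => i.elim0⟩
  | succ L ih =>
    obtain ⟨P, hPN, hPr⟩ := ih (by omega)
    set U : Finset α := N \ Finset.univ.image P with hU
    have hUc : a ≤ U.card := by
      have h1 : (Finset.univ.image P).card = 3 * L := by
        rw [Finset.card_image_of_injective _ P.injective, Finset.card_univ, Fintype.card_prod,
          Fintype.card_fin, Fintype.card_fin, mul_comm]
      have h2 : N.card - (Finset.univ.image P).card ≤ U.card :=
        Finset.le_card_sdiff (Finset.univ.image P) N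
      rw [h1] at h2
      omega
    obtain ⟨y, hy, z, hz, hyz⟩ : ∃ y ∈ U, ∃ z ∈ U, ¬ r y z := by
      by_contra hcon
      push Not at hcon
      have := hcl U Finset.sdiff_subset hcon
      omega
    have hyz' : y ≠ z := by
      rintro rfl
      exact hyz (r.refl _)
    obtain ⟨w, hw⟩ : ∃ w, w ∈ (U.erase y).erase z := by
      have : 0 < ((U.erase y).erase z).card := by
        have e1 := Finset.card_erase_of_mem hy
        have e2 := Finset.pred_card_le_card_erase (s := U.erase y) (a := z)
        omega
      exact Finset.card_pos.1 this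
    rw [Finset.mem_erase, Finset.mem_erase] at hw
    obtain ⟨hwz, hwy, hwU⟩ := hw
    -- the new family
    let t : Fin 3 → α := ![y, z, w]
    have ht : Function.Injective t := by
      intro i j hij
      fin_cases i <;> fin_cases j
      · rfl
      · exact absurd hij hyz'
      · exact absurd hij (Ne.symm hwy)
      · exact absurd hij (Ne.symm hyz')
      · rfl
      · exact absurd hij (Ne.symm hwz)
      · exact absurd hij hwy
      · exact absurd hij hwz
      · rfl
    have htU : ∀ j, t j ∈ U := by
      intro j
      fin_cases j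
      · exact hy
      · exact hz
      · exact hwU
    let f : Fin (L + 1) × Fin 3 → α := fun q =>
      Fin.lastCases (motive := fun _ => α) (t q.2) (fun i => P (i, q.2)) q.1
    have hf1 : ∀ j, f (Fin.last L, j) = t j := fun j => by
      simp only [f, Fin.lastCases_last]
    have hf2 : ∀ i j, f (Fin.castSucc i, j) = P (i, j) := fun i j => by
      simp only [f, Fin.lastCases_castSucc]
    have hnot : ∀ q, P q ∉ U := by
      intro q hq
      rw [hU, Finset.mem_sdiff] at hq
      exact hq.2 (Finset.mem_image_of_mem _ (Finset.mem_univ q))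
    have hfinj : Function.Injective f := by
      rintro ⟨i, j⟩ ⟨i', j'⟩ heq
      induction i using Fin.lastCases with
      | last =>
        induction i' using Fin.lastCases with
        | last =>
          rw [hf1, hf1] at heq
          rw [ht heq]
        | cast i' =>
          rw [hf1, hf2] at heq
          exact absurd (heq ▸ htU j) (hnot _)
      | cast i =>
        induction i' using Fin.lastCases with
        | last =>
          rw [hf1, hf2] at heq
          exact absurd (heq ▸ htU j') (hnot _)
        | cast i' =>
          rw [hf2, hf2] at heq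
          have := P.injective heq
          simp only [Prod.mk.injEq] at this
          rw [this.1, this.2]
    refine ⟨⟨f, hfinj⟩, ?_, ?_⟩
    · rintro ⟨i, j⟩
      induction i using Fin.lastCases with
      | last =>
        show f _ ∈ N
        rw [hf1]
        exact Finset.sdiff_subset (htU j)
      | cast i =>
        show f _ ∈ N
        rw [hf2]
        exact hPN _
    · intro i
      induction i using Fin.lastCases with
      | last =>
        show ¬ r (f _) (f _)
        rw [hf1, hf1]
        exact hyz
      | cast i =>
        show ¬ r (f _) (f _)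
        rw [hf2, hf2]
        exact hPr i

end SpreadPerm
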