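import Pool.Agent.Lib.MP_e6ed9e_al.Sym.Imprim

/-!
Imprimitive stabilizers: the degree is at least `2 ^ (m / 6)`.
-/

namespace SpreadPerm

open Finset Equiv.Perm MulAction
open scoped Pointwise

variable {α : Type*} [Fintype α] [DecidableEq α] {G : Subgroup (Equiv.Perm α)}
  {Ω : Type*} [Fintype Ω] [MulAction G Ω]

theorem two_pow_le_of_imprimitive (hG : alternatingGroup α ≤ G)
    [MulAction.IsPretransitive G Ω] (x : Ω) (ht : MulAction.IsPretransitive (stab G x) α)
    (B : Set α) (hB : IsBlock (stab G x) B) (h1 : 1 < B.ncard) (h2 : B ≠ Set.univ) :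
    2 ^ (Fintype.card α / 6) ≤ Fintype.card Ω := by
  classical
  have hBne : B.Nonempty := by
    rw [Set.nonempty_iff_ne_empty]
    rintro rfl
    simp at h1
  obtain ⟨b0, hb0⟩ := hBne
  have hBne : B.Nonempty := ⟨b0, hb0⟩
  have hprod := hB.ncard_block_mul_ncard_orbit_eq hBne
  rw [Nat.card_eq_fintype_card] at hprod
  -- the translates
  have hne : ∀ C : orbit (stab G x) B, (C : Set α).Nonempty := by
    rintro ⟨_, ⟨g, rfl⟩⟩
    exact hBne.smul_set
  choose c hc using hne
  have hdisj : ∀ (C D : orbit (stab G x) B) (z : α), z ∈ (C : Set α) → z ∈ (D : Set α) →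
      C = D := by
    rintro ⟨_, ⟨g, rfl⟩⟩ ⟨_, ⟨h, rfl⟩⟩ z hz hz'
    refine Subtype.ext ?_
    exact hB.smul_eq_smul_of_nonempty ⟨z, hz, hz'⟩
  have hcov : ∀ z : α, ∃ C : orbit (stab G x) B, z ∈ (C : Set α) := by
    intro z
    obtain ⟨g, hg⟩ := ht.exists_smul_eq b0 z
    exact ⟨⟨g • B, ⟨g, rfl⟩⟩, by rw [← hg]; exact Set.smul_mem_smul_set hb0⟩
  choose cls hcls using hcov
  have hcls' : ∀ (z : α) (C : orbit (stab G x) B), z ∈ (C : Set α) → cls z = C :=
    fun z C hz => hdisj _ _ z (hcls z) hz
  have hclsc : ∀ C, cls (c C) = C := fun C => hcls' _ _ (hc C)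
  have hcinj : Function.Injective c := fun C D h => by rw [← hclsc C, h, hclsc D]
  have hfin : Finite (orbit (stab G x) B) := Set.toFinite _
  have : Fintype (orbit (stab G x) B) := Fintype.ofFinite _
  set b := (orbit (stab G x) B).ncard with hbdef
  have hbcard : Fintype.card (orbit (stab G x) B) = b := by
    rw [hbdef, ← Nat.card_coe_set_eq, Nat.card_eq_fintype_card]
  set a := B.ncard with hadef
  set m := Fintype.card α with hmdef
  -- size of a translate
  have hCcard : ∀ C : orbit (stab G x) B, (C : Set α).ncard = a := by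
    rintro ⟨_, ⟨g, rfl⟩⟩
    exact Set.ncard_smul_set g B
  have hb2 : 2 ≤ b := by
    by_contra hcon
    have hBlt : a < m := by
      rw [hmdef, ← Nat.card_eq_fintype_card]
      exact Set.ncard_lt_card h2
    have : a * b ≤ a * 1 := Nat.mul_le_mul_left _ (by omega)
    omega
  set N : Finset α := Finset.univ \ Finset.univ.image c with hN
  have hNcard : N.card = m - b := by
    rw [hN, Finset.card_sdiff_of_subset (Finset.subset_univ _),
      Finset.card_image_of_injective _ hcinj, Finset.card_univ, Finset.card_univ, hbcard]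
  have hab : 2 * (a + b) ≤ m + 4 := by
    obtain ⟨a', ha'⟩ : ∃ a', a = a' + 2 := ⟨a - 2, by omega⟩
    obtain ⟨b', hb'⟩ : ∃ b', b = b' + 2 := ⟨b - 2, by omega⟩
    rw [← hprod, ha', hb']
    nlinarith [Nat.zero_le (a' * b')]
  -- the triples
  let r : Setoid α := Setoid.ker cls
  have hrdef : ∀ y z, r y z ↔ cls y = cls z := fun y z => Setoid.ker_def
  obtain ⟨P, hPN, hPr⟩ := exists_triples r N (max a 3) (le_max_right _ _) (by
    intro U hUN hU
    rcases U.eq_empty_or_nonempty with rfl | ⟨u, hu⟩
    · simp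
    · have hsub : (U : Set α) ⊆ (cls u : Set α) \ {c (cls u)} := by
        intro z hz
        refine ⟨?_, ?_⟩
        · have := (hrdef _ _).1 (hU z hz u hu)
          rw [← this]
          exact hcls z
        · intro hzc
          rw [Set.mem_singleton_iff] at hzc
          have := hUN hz
          rw [hN, Finset.mem_sdiff] at this
          apply this.2
          rw [hzc]
          exact Finset.mem_image_of_mem _ (Finset.mem_univ _)
      have h3 := Set.ncard_le_ncard hsub (Set.toFinite _)
      rw [Set.ncard_coe_finset, Set.ncard_diff_singleton_of_mem (hc _), hCcard] at h3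
      have : a ≤ max a 3 := le_max_left _ _
      omega) (m / 6) (by
    rw [hNcard]
    have hmb : b ≤ m := by
      rw [← hprod]
      exact Nat.le_mul_of_pos_left _ (by omega)
    rcases le_total a 3 with h | h
    · rw [max_eq_right h]
      omega
    · rw [max_eq_left h]
      omega)
  refine two_pow_le_card hG x r ?_ (m / 6) P (fun i => c (cls (P (i, 0)))) ?_ ?_ hPr
  · intro h hh y z hyz
    rw [hrdef] at hyz ⊢
    have key : ∀ w, cls (h w) = (⟨(⟨h, hh⟩ : stab G x) • (cls w : Set α), by
        obtain ⟨g, hg⟩ := (cls w).2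
        refine ⟨⟨h, hh⟩ * g, ?_⟩
        show ((⟨h, hh⟩ : stab G x) * g) • B = _
        rw [mul_smul, ← hg]⟩ : orbit (stab G x) B) := by
      intro w
      apply hcls'
      exact Set.smul_mem_smul_set (a := (⟨h, hh⟩ : stab G x)) (hcls w)
    rw [key y, key z]
    refine Subtype.ext ?_
    show (⟨h, hh⟩ : stab G x) • (cls y : Set α) = (⟨h, hh⟩ : stab G x) • (cls z : Set α)
    rw [hyz]
  · rintro i ⟨q, hq⟩
    have := hPN q
    rw [hN, Finset.mem_sdiff] at this
    apply this.2
    rw [hq]
    exact Finset.mem_image_of_mem _ (Finset.mem_univ _)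
  · intro i
    rw [hrdef, hclsc]

end SpreadPerm
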