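import Mathlib

/-!
Numerical inequalities.
-/

namespace SpreadPerm

lemma pow_self_le (k : ℕ) : k ^ k ≤ 3 ^ k * k.factorial := by
  have h1 : (k : ℝ) ^ k / (k.factorial : ℝ) ≤ Real.exp k :=
    Real.pow_div_factorial_le_exp (k : ℝ) (Nat.cast_nonneg k) k
  have h2 : Real.exp k ≤ 3 ^ k := by
    have : Real.exp k = Real.exp 1 ^ k := by rw [← Real.exp_nat_mul, mul_one]
    rw [this]
    exact pow_le_pow_left₀ (Real.exp_pos 1).le Real.exp_one_lt_three.le k
  have hpos : (0 : ℝ) < (k.factorial : ℝ) := by exact_mod_cast k.factorial_pos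
  have h3 : (k : ℝ) ^ k ≤ 3 ^ k * (k.factorial : ℝ) := by
    rw [div_le_iff₀ hpos] at h1
    exact h1.trans (mul_le_mul_of_nonneg_right h2 hpos.le)
  exact_mod_cast h3

lemma two_mul_sq_le (q : ℕ) (hq : 9 ≤ q) : 2 * (q + 1) ^ 2 ≤ 2 ^ q := by
  induction q, hq using Nat.le_induction with
  | base => norm_num
  | succ q hq ih =>
    calc 2 * (q + 1 + 1) ^ 2 ≤ 2 * (2 * (q + 1) ^ 2) := by nlinarith
      _ ≤ 2 * 2 ^ q := by omega
      _ = 2 ^ (q + 1) := by ring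

lemma lin_le_pow (q : ℕ) (hq : 8 ≤ q) : 24 * (q + 1) ≤ 2 ^ q := by
  induction q, hq using Nat.le_induction with
  | base => norm_num
  | succ q hq ih =>
    calc 24 * (q + 1 + 1) ≤ 2 * (24 * (q + 1)) := by omega
      _ ≤ 2 * 2 ^ q := by omega
      _ = 2 ^ (q + 1) := by ring

lemma num_imprim (m : ℕ) (hm : 1000 ≤ m) : m ^ 4 < 2 ^ (m / 6) := by
  set q := m / 24 with hq
  have h1 : m < 24 * (q + 1) := by omega
  have h2 : m < 2 ^ q := lt_of_lt_of_le h1 (lin_le_pow q (by omega))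
  calc m ^ 4 < (2 ^ q) ^ 4 := Nat.pow_lt_pow_left h2 (by norm_num)
    _ = 2 ^ (q * 4) := by rw [← pow_mul]
    _ ≤ 2 ^ (m / 6) := Nat.pow_le_pow_right (by norm_num) (by omega)

lemma num_intrans (m n : ℕ) (hm : 1000 ≤ m) (hn : m.choose 2 ≤ n) : n ^ m < 2 ^ n := by
  have hc : m.choose 2 = m * (m - 1) / 2 := Nat.choose_two_right m
  set q := n / m with hq
  have hmpos : 0 < m := by omega
  have h1 : n < m * (q + 1) := by
    rw [mul_comm]
    exact Nat.lt_mul_of_div_lt (Nat.lt_succ_self _) hmpos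
  have h2 : (m - 1) / 2 ≤ q := by
    rw [hq, Nat.le_div_iff_mul_le hmpos]
    calc (m - 1) / 2 * m ≤ m * (m - 1) / 2 := by
          rw [mul_comm]
          exact Nat.mul_div_le_mul_div_assoc _ _ _
      _ ≤ n := by rw [← hc]; exact hn
  have h3 : m ≤ 2 * (q + 1) := by omega
  have h4 : m * (q + 1) ≤ 2 ^ q := by
    calc m * (q + 1) ≤ 2 * (q + 1) * (q + 1) := Nat.mul_le_mul_right _ h3
      _ = 2 * (q + 1) ^ 2 := by ring
      _ ≤ 2 ^ q := two_mul_sq_le q (by omega)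
  calc n ^ m < (m * (q + 1)) ^ m := Nat.pow_lt_pow_left h1 hmpos.ne'
    _ ≤ (2 ^ q) ^ m := Nat.pow_le_pow_left h4 m
    _ = 2 ^ (q * m) := by rw [← pow_mul]
    _ ≤ 2 ^ n := Nat.pow_le_pow_right (by norm_num) (by rw [hq]; exact Nat.div_mul_le_self n m)

lemma num_prim_aux (k : ℕ) (hk : 500 ≤ k) : 8 * (2 * k) ^ (2 * k + 15) * 27 ^ k < k ^ (3 * k) := by
  obtain ⟨j, rfl⟩ : ∃ j, k = 15 + j := ⟨k - 15, by omega⟩
  have hj : 485 ≤ j := by omega
  have h1 : 2 ^ 18 * 108 ^ 15 * 108 ^ j < 500 ^ j := by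
    have e1 : 2 ^ 18 * 108 ^ 15 < 4 ^ j := by
      calc 2 ^ 18 * 108 ^ 15 < 4 ^ 70 := by norm_num
        _ ≤ 4 ^ j := Nat.pow_le_pow_right (by norm_num) (by omega)
    calc 2 ^ 18 * 108 ^ 15 * 108 ^ j < 4 ^ j * 108 ^ j :=
          Nat.mul_lt_mul_of_pos_right e1 (by positivity)
      _ = 432 ^ j := by rw [← mul_pow]; norm_num
      _ ≤ 500 ^ j := Nat.pow_le_pow_left (by norm_num) j
  have h2 : 2 ^ 18 * 108 ^ (15 + j) < (15 + j) ^ j := by
    calc 2 ^ 18 * 108 ^ (15 + j) = 2 ^ 18 * 108 ^ 15 * 108 ^ j := by rw [pow_add]; ring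
      _ < 500 ^ j := h1
      _ ≤ (15 + j) ^ j := Nat.pow_le_pow_left hk j
  set k := 15 + j with hkdef
  have hkpos : 0 < k := by omega
  calc 8 * (2 * k) ^ (2 * k + 15) * 27 ^ k
      = (2 ^ 18 * 108 ^ k) * k ^ (2 * k + 15) := by
        rw [mul_pow]
        have : (108 : ℕ) ^ k = 4 ^ k * 27 ^ k := by rw [← mul_pow]; norm_num
        rw [this]
        have h4 : (2 : ℕ) ^ (2 * k + 15) = 4 ^ k * 2 ^ 15 := by rw [pow_add, pow_mul]; norm_num
        rw [h4]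
        ring
    _ < k ^ j * k ^ (2 * k + 15) := Nat.mul_lt_mul_of_pos_right h2 (by positivity)
    _ = k ^ (3 * k) := by
        rw [← pow_add]
        congr 1
        omega

lemma num_prim (m : ℕ) (hm : 1000 ≤ m) :
    2 * m ^ (m / 3 + 3 + 2) < ((m + 1) / 2).factorial := by
  set k := (m + 1) / 2 with hk
  have hk1 : 500 ≤ k := by omega
  have hk2 : m ≤ 2 * k := by omega
  by_contra hcon
  push Not at hcon
  have hkpos : 0 < k := by omega
  have h1 : k.factorial ^ 3 ≤ 8 * (2 * k) ^ (2 * k + 15) := by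
    calc k.factorial ^ 3 ≤ (2 * m ^ (m / 3 + 3 + 2)) ^ 3 := Nat.pow_le_pow_left hcon 3
      _ = 8 * m ^ ((m / 3 + 3 + 2) * 3) := by rw [mul_pow, ← pow_mul]; norm_num
      _ ≤ 8 * (2 * k) ^ ((m / 3 + 3 + 2) * 3) :=
        Nat.mul_le_mul_left _ (Nat.pow_le_pow_left hk2 _)
      _ ≤ 8 * (2 * k) ^ (2 * k + 15) :=
        Nat.mul_le_mul_left _ (Nat.pow_le_pow_right (by omega) (by omega))
  have h2 : k ^ (3 * k) ≤ 8 * (2 * k) ^ (2 * k + 15) * 27 ^ k := by
    calc k ^ (3 * k) = (k ^ k) ^ 3 := by rw [← pow_mul, mul_comm]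
      _ ≤ (3 ^ k * k.factorial) ^ 3 := Nat.pow_le_pow_left (pow_self_le k) 3
      _ = k.factorial ^ 3 * 27 ^ k := by
        rw [mul_pow, ← pow_mul, mul_comm k 3, pow_mul]
        norm_num
        ring
      _ ≤ 8 * (2 * k) ^ (2 * k + 15) * 27 ^ k := Nat.mul_le_mul_right _ h1
  exact absurd h2 (not_le.2 (num_prim_aux k hk1))

lemma choose_two_le (m k : ℕ) (h1 : 2 ≤ k) (h2 : k + 2 ≤ m) : m.choose 2 ≤ m.choose k := by
  have aux : ∀ k, 2 ≤ k → 2 * k ≤ m → m.choose 2 ≤ m.choose k := by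
    intro k hk
    induction k, hk using Nat.le_induction with
    | base => intro _; exact le_rfl
    | succ k hk ih =>
      intro h
      exact (ih (by omega)).trans (Nat.choose_le_succ_of_lt_half_left (by omega))
  rcases le_total (2 * k) m with h | h
  · exact aux k h1 h
  · rw [← Nat.choose_symm (show k ≤ m by omega)]
    exact aux (m - k) (by omega) (by omega)

end SpreadPerm
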