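import Pool.Agent.Lib.MP_e6ed9e_al.Sym.Setup
import Pool.Agent.Lib.MP_e6ed9e_al.Sym.Numerics

/-!
The case of an intransitive point stabilizer.
-/

namespace SpreadPerm

open Finset Equiv.Perm MulAction

variable {α : Type*} [Fintype α] [DecidableEq α] {G : Subgroup (Equiv.Perm α)}
  {Ω : Type*} [Fintype Ω] [MulAction G Ω]

lemma exists_image_eq (hG : alternatingGroup α ≤ G) (S T : Finset α) (hST : S.card = T.card)
    (hS : S.card + 2 ≤ Fintype.card α) : ∃ g : G, S.image (g : Equiv.Perm α) = T := by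
  have h := multiply_of_alt hG S.card hS
  let f : Fin S.card ↪ α := S.equivFin.symm.toEmbedding.trans (Function.Embedding.subtype _)
  let f' : Fin S.card ↪ α :=
    (T.equivFinOfCardEq hST.symm).symm.toEmbedding.trans (Function.Embedding.subtype _)
  obtain ⟨g, hg⟩ := h.exists_smul_eq f f'
  refine ⟨g, ?_⟩
  refine Finset.eq_of_subset_of_card_le ?_ ?_
  · intro y hy
    obtain ⟨s, hs, rfl⟩ := Finset.mem_image.1 hy
    have h1 : (g : Equiv.Perm α) (f (S.equivFin ⟨s, hs⟩)) = f' (S.equivFin ⟨s, hs⟩) :=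
      DFunLike.congr_fun hg _
    have h2 : f (S.equivFin ⟨s, hs⟩) = s := by
      simp [f]
    rw [h2] at h1
    rw [h1]
    exact (((T.equivFinOfCardEq hST.symm).symm (S.equivFin ⟨s, hs⟩))).2
  · rw [Finset.card_image_of_injective _ (Equiv.injective _), hST]

lemma choose_le_card (hG : alternatingGroup α ≤ G) (x : Ω) (S : Finset α)
    (hS : S.card + 2 ≤ Fintype.card α) (hinv : ∀ h ∈ stab G x, ∀ s ∈ S, h s ∈ S) :
    (Fintype.card α).choose S.card ≤ Fintype.card Ω := by
  classical
  have hex : ∀ T : (Finset.powersetCard S.card (univ : Finset α)),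
      ∃ g : G, S.image (g : Equiv.Perm α) = T.1 := by
    intro T
    have hT := (Finset.mem_powersetCard.1 T.2).2
    exact exists_image_eq hG S T.1 hT.symm hS
  choose g hg using hex
  have hinj : Function.Injective (fun T => g T • x) := by
    intro T T' hTT
    simp only at hTT
    have h1 : ((g T')⁻¹ * g T) • x = x := by
      rw [mul_smul, hTT, inv_smul_smul]
    have h2 := (mem_stab x _).2 h1
    have h3 : ∀ s ∈ S, (((g T')⁻¹ * g T : G) : Equiv.Perm α) s ∈ S := hinv _ h2
    refine Subtype.ext ?_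
    refine Finset.eq_of_subset_of_card_le ?_ ?_
    · intro y hy
      rw [← hg T] at hy
      obtain ⟨s, hs, rfl⟩ := Finset.mem_image.1 hy
      have h4 := h3 s hs
      rw [← hg T']
      refine Finset.mem_image.2 ⟨_, h4, ?_⟩
      rw [Subgroup.coe_mul, Subgroup.coe_inv, Equiv.Perm.mul_apply]
      exact papply_inv _ _
    · rw [(Finset.mem_powersetCard.1 T.2).2, (Finset.mem_powersetCard.1 T'.2).2]
  have h5 := Fintype.card_le_of_injective _ hinj
  rwa [Fintype.card_coe, Finset.card_powersetCard, Finset.card_univ] at h5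

/-- The index of a point stabilizer bounds everything when the stabilizer is intransitive. -/
lemma pow_le_of_intransitive (hG : alternatingGroup α ≤ G) [MulAction.IsPretransitive G Ω]
    (hsp : Spreading G Ω) (x : Ω) (hm : 3 ≤ Fintype.card α)
    (hnt : ¬ MulAction.IsPretransitive (stab G x) α) :
    2 ^ Fintype.card Ω ≤ Fintype.card Ω ^ Fintype.card α := by
  have : Nonempty Ω := ⟨x⟩
  obtain ⟨f0⟩ : Nonempty (Fin 1 ↪ α) := by
    rw [Function.Embedding.nonempty_iff_card_le, Fintype.card_fin]; omega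
  have hK : ¬ MulAction.IsPretransitive (stabilizer G (f0 : Fin 1 → α)) Ω := by
    intro h
    have h1 := stab_multiply hG x 1 (by omega) f0 h
    exact hnt (is_one_pretransitive_iff.1 h1)
  have h1 := index_bound hsp _ hK
  have hn0 : 0 < Fintype.card Ω := Fintype.card_pos
  refine h1.trans (Nat.pow_le_pow_right hn0 ?_)
  simpa using index_tuple_le (G := G) 1 (f0 : Fin 1 → α)

/-- An intransitive subgroup fixes a point or has an invariant set that is not too small and not
too large. -/
lemma fixes_or_invariant (H : Subgroup (Equiv.Perm α)) (hnt : ¬ MulAction.IsPretransitive H α) :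
    (∃ a, ∀ h ∈ H, h a = a) ∨
      ∃ S : Finset α, 2 ≤ S.card ∧ S.card + 2 ≤ Fintype.card α ∧ ∀ h ∈ H, ∀ s ∈ S, h s ∈ S := by
  classical
  obtain ⟨a, b, hab⟩ : ∃ a b : α, ∀ h ∈ H, h a ≠ b := by
    by_contra hcon
    push Not at hcon
    refine hnt ⟨fun a b => ?_⟩
    obtain ⟨h, hh, e⟩ := hcon a b
    exact ⟨⟨h, hh⟩, e⟩
  let O : Finset α := univ.filter fun y => ∃ h ∈ H, h a = y
  have hO : ∀ h ∈ H, ∀ s ∈ O, h s ∈ O := by
    intro h hh s hs
    obtain ⟨-, k, hk, rfl⟩ := Finset.mem_filter.1 hs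
    exact Finset.mem_filter.2 ⟨mem_univ _, h * k, H.mul_mem hh hk, rfl⟩
  have haO : a ∈ O := Finset.mem_filter.2 ⟨mem_univ _, 1, H.one_mem, rfl⟩
  have hbO : b ∉ O := by
    intro hb
    obtain ⟨-, k, hk, e⟩ := Finset.mem_filter.1 hb
    exact hab k hk e
  by_cases h1 : O.card ≤ 1
  · left
    refine ⟨a, fun h hh => ?_⟩
    exact Finset.card_le_one.1 h1 _ (hO h hh a haO) _ haO
  by_cases h2 : O.card + 2 ≤ Fintype.card α
  · right
    exact ⟨O, by omega, h2, hO⟩
  · left
    have h3 : Oᶜ.card ≤ 1 := by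
      rw [Finset.card_compl]; omega
    refine ⟨b, fun h hh => ?_⟩
    have h4 : h b ∈ Oᶜ := by
      rw [Finset.mem_compl]
      intro hc
      have := hO h⁻¹ (H.inv_mem hh) _ hc
      rw [pinv_apply] at this
      exact hbO this
    exact Finset.card_le_one.1 h3 _ h4 _ (Finset.mem_compl.2 hbO)

/-- If the point stabilizer fixes a point of `α` then `Ω` is the natural action. -/
lemma natural_of_fix (hG : alternatingGroup α ≤ G) [MulAction.IsPretransitive G Ω]
    (hsp : Spreading G Ω) (x : Ω) (hm : 3 ≤ Fintype.card α) (hn : 2 ≤ Fintype.card Ω)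
    (a : α) (ha : ∀ h ∈ stab G x, h a = a) :
    ∃ e : Ω ≃ α, ∀ (g : G) (w : Ω), e (g • w) = (g : Equiv.Perm α) (e w) := by
  classical
  have hcoatom := isCoatom_stabilizer_of_spreading hsp hn x
  have htr : IsMultiplyPretransitive G α 1 := multiply_of_alt hG 1 (by omega)
  have htr' : MulAction.IsPretransitive G α := is_one_pretransitive_iff.1 htr
  have hle : stabilizer G x ≤ stabilizer G a := by
    intro g hg
    have h1 : (g : Equiv.Perm α) ∈ stab G x := (mem_stab x g).2 hg
    exact ha _ h1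
  have hne : stabilizer G a ≠ ⊤ := by
    intro htop
    obtain ⟨b, hb⟩ : ∃ b, b ≠ a := by
      have : Nontrivial α := Fintype.one_lt_card_iff_nontrivial.1 (by omega)
      exact exists_ne a
    obtain ⟨g, hg⟩ := htr'.exists_smul_eq a b
    have h1 : g ∈ stabilizer G a := by rw [htop]; exact Subgroup.mem_top g
    exact hb (hg.symm.trans h1)
  have heq : stabilizer G x = stabilizer G a := by
    by_contra hcon
    exact hne (hcoatom.2 _ (lt_of_le_of_ne hle hcon))
  have hex : ∀ w : Ω, ∃ g : G, g • x = w := fun w => MulAction.exists_smul_eq G x w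
  choose γ hγ using hex
  have hiff : ∀ g g' : G, g • x = g' • x ↔ (g : Equiv.Perm α) a = (g' : Equiv.Perm α) a := by
    intro g g'
    have h1 : g • x = g' • x ↔ g'⁻¹ * g ∈ stabilizer G x := by
      rw [mem_stabilizer_iff, mul_smul, inv_smul_eq_iff]
    have h2 : g • a = g' • a ↔ g'⁻¹ * g ∈ stabilizer G a := by
      rw [mem_stabilizer_iff, mul_smul, inv_smul_eq_iff]
    rw [h1, heq, ← h2]
    rfl
  have hbij : Function.Bijective (fun w : Ω => ((γ w : G) : Equiv.Perm α) a) := by
    constructor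
    · intro w w' h
      have h1 := (hiff (γ w) (γ w')).2 h
      rw [hγ, hγ] at h1
      exact h1
    · intro b
      obtain ⟨g, hg⟩ := htr'.exists_smul_eq a b
      refine ⟨g • x, ?_⟩
      have h1 : (γ (g • x)) • x = g • x := hγ _
      exact ((hiff _ _).1 h1).trans hg
  refine ⟨Equiv.ofBijective _ hbij, fun g w => ?_⟩
  show ((γ (g • w) : G) : Equiv.Perm α) a = (g : Equiv.Perm α) (((γ w : G) : Equiv.Perm α) a)
  have h1 : (γ (g • w)) • x = (g * γ w) • x := by
    rw [hγ, mul_smul, hγ]
  have h2 := (hiff _ _).1 h1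
  rw [h2, Subgroup.coe_mul, Equiv.Perm.mul_apply]

end SpreadPerm
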