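import Pool.Agent.Lib.MP_e6ed9e_al.Sym.Intrans
import Pool.Agent.Lib.MP_e6ed9e_al.Sym.Imprim2

/-!
Spreading actions of alternating and symmetric groups.
-/

namespace SpreadPerm

open Finset Equiv.Perm MulAction

variable {α : Type*} [Fintype α] [DecidableEq α] {G : Subgroup (Equiv.Perm α)}
  {Ω : Type*} [Fintype Ω] [MulAction G Ω]

theorem natural_of_spreading (hm : 1000 ≤ Fintype.card α) (hG : alternatingGroup α ≤ G)
    [MulAction.IsPretransitive G Ω] (hn : 3 ≤ Fintype.card Ω) (hsp : Spreading G Ω) :
    ∃ e : Ω ≃ α, ∀ (g : G) (w : Ω), e (g • w) = (g : Equiv.Perm α) (e w) := by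
  classical
  have hne : Nonempty Ω := Fintype.card_pos_iff.1 (by omega)
  obtain ⟨x⟩ := hne
  set m := Fintype.card α with hmdef
  by_cases htr : MulAction.IsPretransitive (stab G x) α
  · exfalso
    have hA : ¬ alternatingGroup α ≤ stab G x := by
      intro h
      have := card_le_two_of_alt x (by omega) h
      omega
    by_cases hprim : IsPreprimitive (stab G x) α
    · have h3 : ∀ g ∈ stab G x, ¬ g.IsThreeCycle := by
        intro g hg h3g
        exact hA (alternatingGroup_le_of_isPreprimitive_of_isThreeCycle_mem hprim h3g hg)
      have h1 := factorial_le_card hG x (by omega) h3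
      have hnt : ¬ IsMultiplyPretransitive (stab G x) α (m / 3 + 3) := by
        intro h
        have := trans_bound (stab G x) (m / 3 + 3) (by omega) (by omega) h hA
        omega
      have h2 := card_le_pow hG hsp x (m / 3 + 3) (by omega) hnt
      have h4 := num_prim m hm
      rw [← hmdef] at h1 h2
      omega
    · -- imprimitive
      obtain ⟨B, hB, hB1, hB2⟩ : ∃ B : Set α, IsBlock (stab G x) B ∧ 1 < B.ncard ∧
          B ≠ Set.univ := by
        by_contra hcon
        push Not at hcon
        refine hprim ⟨fun {B} hB => ?_⟩
        by_cases hB1 : B.Subsingleton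
        · exact Or.inl hB1
        · have h5 : 1 < B.ncard := by
            rw [Set.one_lt_ncard_iff_nontrivial, ← Set.not_subsingleton_iff]
            exact hB1
          exact Or.inr (hcon B hB h5)
      have h1 := two_pow_le_of_imprimitive hG x htr B hB hB1 hB2
      have hnt : ¬ IsMultiplyPretransitive (stab G x) α 2 := by
        intro h
        exact hprim (isPreprimitive_of_is_two_pretransitive h)
      have h2 := card_le_pow hG hsp x 2 (by omega) hnt
      have h4 := num_imprim m hm
      rw [← hmdef] at h1 h2
      have h5 : 2 + 2 = 4 := rfl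
      rw [h5] at h2
      omega
  · rcases fixes_or_invariant (stab G x) htr with ⟨a, ha⟩ | ⟨S, hS1, hS2, hS⟩
    · exact natural_of_fix hG hsp x (by omega) (by omega) a ha
    · exfalso
      have h1 := choose_le_card hG x S hS2 hS
      have h2 := choose_two_le m S.card hS1 hS2
      have h3 := pow_le_of_intransitive hG hsp x (by omega) htr
      have h4 := num_intrans m (Fintype.card Ω) hm (h2.trans h1)
      rw [← hmdef] at h3
      omega

end SpreadPerm
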