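import Pool.Agent.Lib.MP_e6ed9e_al.Sym.Trans
import Pool.Agent.Lib.MP_e6ed9e_al.Sym.Block

/-!
Groups between the alternating and the symmetric group: factorisations and the degree.
-/

namespace SpreadPerm

open Finset Equiv.Perm MulAction

variable {α : Type*} [Fintype α] [DecidableEq α] (G : Subgroup (Equiv.Perm α))
  {Ω : Type*} [Fintype Ω] [MulAction G Ω]

/-- The point stabilizer as a subgroup of the symmetric group. -/
def stab (x : Ω) : Subgroup (Equiv.Perm α) := (stabilizer G x).map G.subtype

variable {G}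

omit [Fintype α] [DecidableEq α] [Fintype Ω] in
lemma mem_stab (x : Ω) (g : G) : (g : Equiv.Perm α) ∈ stab G x ↔ g • x = x := by
  rw [stab, Subgroup.mem_map]
  constructor
  · rintro ⟨h, hh, e⟩
    have : h = g := Subtype.ext e
    rw [← this]; exact hh
  · intro h
    exact ⟨g, h, rfl⟩

omit [Fintype α] [DecidableEq α] [Fintype Ω] in
lemma stab_le (x : Ω) : stab G x ≤ G := by
  rintro _ ⟨h, -, rfl⟩
  exact h.2

/-- The alternating group is multiply transitive, hence so is every larger group. -/
lemma multiply_of_alt (hG : alternatingGroup α ≤ G) (t : ℕ) (ht : t + 2 ≤ Fintype.card α) :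
    IsMultiplyPretransitive G α t := by
  have h1 := alternatingGroup.isMultiplyPretransitive α
  have h2 : IsMultiplyPretransitive (alternatingGroup α) α t :=
    isMultiplyPretransitive_of_le (n := Nat.card α - 2)
      (by rw [Nat.card_eq_fintype_card]; omega) (by omega)
  refine ⟨fun f f' => ?_⟩
  obtain ⟨g, hg⟩ := h2.exists_smul_eq f f'
  exact ⟨⟨g, hG g.2⟩, hg⟩

omit [DecidableEq α] in
/-- The index of the stabilizer of a `t`-tuple. -/
lemma index_tuple_le (t : ℕ) (f : Fin t → α) :
    (stabilizer G f).index ≤ Fintype.card α ^ t := by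
  rw [index_stabilizer]
  calc (orbit G f).ncard ≤ Nat.card (Fin t → α) := Set.ncard_le_card _
    _ = Fintype.card α ^ t := by
      rw [Nat.card_eq_fintype_card, Fintype.card_fun, Fintype.card_fin]

omit [Fintype Ω] in
/-- If the stabilizer of some `t`-tuple of distinct points is transitive on `Ω` then the point
stabilizers of `Ω` are `t`-transitive. -/
lemma stab_multiply (hG : alternatingGroup α ≤ G) (x : Ω) (t : ℕ)
    (ht : t + 2 ≤ Fintype.card α) (f0 : Fin t ↪ α)
    (hK : MulAction.IsPretransitive (stabilizer G (f0 : Fin t → α)) Ω) :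
    IsMultiplyPretransitive (stab G x) α t := by
  have hGt := multiply_of_alt hG t ht
  -- every tuple is in the orbit of `f0` under the stabilizer of `x`
  have key : ∀ f : Fin t ↪ α, ∃ h : stab G x, ∀ i, (h : Equiv.Perm α) (f0 i) = f i := by
    intro f
    obtain ⟨g, hg⟩ := hGt.exists_smul_eq f0 f
    obtain ⟨k, hk⟩ := hK.exists_smul_eq x (g⁻¹ • x)
    have hk' : (k : G) • x = g⁻¹ • x := hk
    have hmem : ((g * (k : G) : G) : Equiv.Perm α) ∈ stab G x := by
      rw [mem_stab, mul_smul, hk', smul_inv_smul]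
    refine ⟨⟨_, hmem⟩, fun i => ?_⟩
    have h1 : (k : G) • (f0 : Fin t → α) = f0 := k.2
    have h2 : ((k : G) : Equiv.Perm α) (f0 i) = f0 i := congrFun h1 i
    have h3 : (g : Equiv.Perm α) (f0 i) = f i := DFunLike.congr_fun hg i
    show ((g * (k : G) : G) : Equiv.Perm α) (f0 i) = f i
    rw [Subgroup.coe_mul, Equiv.Perm.mul_apply, h2, h3]
  refine ⟨fun f f' => ?_⟩
  obtain ⟨h, hh⟩ := key f
  obtain ⟨h', hh'⟩ := key f'
  refine ⟨h' * h⁻¹, ?_⟩
  ext i
  show ((h' * h⁻¹ : stab G x) : Equiv.Perm α) (f i) = f' i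
  rw [Subgroup.coe_mul, Equiv.Perm.mul_apply, ← hh i]
  have : ((h⁻¹ : stab G x) : Equiv.Perm α) ((h : Equiv.Perm α) (f0 i)) = f0 i := by
    rw [Subgroup.coe_inv]
    exact pinv_apply _ _
  rw [this, hh']

omit [DecidableEq α] in
/-- The degree is at most `m!`. -/
lemma card_le_factorial [Nonempty Ω] [MulAction.IsPretransitive G Ω] :
    Fintype.card Ω ≤ (Fintype.card α).factorial := by
  classical
  obtain ⟨x⟩ := ‹Nonempty Ω›
  have h1 : Function.Surjective (fun g : G => g • x) := fun y => MulAction.exists_smul_eq G x y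
  have h2 : Nat.card Ω ≤ Nat.card G := Nat.card_le_card_of_surjective _ h1
  have h3 : Nat.card G ≤ Nat.card (Equiv.Perm α) :=
    Nat.card_le_card_of_injective _ Subtype.val_injective
  rw [Nat.card_eq_fintype_card] at h2
  rw [Nat.card_perm, Nat.card_eq_fintype_card (α := α)] at h3
  exact h2.trans h3

/-- If the stabilizers are not `t`-transitive then `n ≤ m ^ (t + 2)`. -/
lemma card_le_pow (hG : alternatingGroup α ≤ G) [MulAction.IsPretransitive G Ω]
    (hsp : Spreading G Ω) (x : Ω) (t : ℕ) (ht : t + 2 ≤ Fintype.card α)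
    (hnt : ¬ IsMultiplyPretransitive (stab G x) α t) :
    Fintype.card Ω ≤ Fintype.card α ^ (t + 2) := by
  have : Nonempty Ω := ⟨x⟩
  set m := Fintype.card α with hm
  set n := Fintype.card Ω with hn
  obtain ⟨f0⟩ : Nonempty (Fin t ↪ α) := by
    rw [Function.Embedding.nonempty_iff_card_le, Fintype.card_fin]; omega
  have hK : ¬ MulAction.IsPretransitive (stabilizer G (f0 : Fin t → α)) Ω :=
    fun h => hnt (stab_multiply hG x t ht f0 h)
  have h1 := index_bound hsp _ hK
  have hn0 : 0 < n := Fintype.card_pos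
  have h2 : n ^ (stabilizer G (f0 : Fin t → α)).index ≤ n ^ (m ^ t) :=
    Nat.pow_le_pow_right hn0 (index_tuple_le t _)
  have h3 : n ≤ 2 ^ (m * m) := by
    calc n ≤ m.factorial := card_le_factorial (G := G)
      _ ≤ m ^ m := Nat.factorial_le_pow m
      _ ≤ (2 ^ m) ^ m := Nat.pow_le_pow_left (Nat.lt_two_pow_self).le m
      _ = 2 ^ (m * m) := by rw [← pow_mul]
  have h4 : 2 ^ n ≤ 2 ^ (m * m * m ^ t) := by
    calc 2 ^ n ≤ n ^ (m ^ t) := h1.trans h2
      _ ≤ (2 ^ (m * m)) ^ (m ^ t) := Nat.pow_le_pow_left h3 _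
      _ = 2 ^ (m * m * m ^ t) := by rw [← pow_mul]
  have h5 := (Nat.pow_le_pow_iff_right (by norm_num)).1 h4
  calc n ≤ m * m * m ^ t := h5
    _ = m ^ (t + 2) := by ring

/-- If the stabilizers contain no 3-cycle then `2 n ≥ ⌈m/2⌉!`. -/
lemma factorial_le_card (hG : alternatingGroup α ≤ G) [MulAction.IsPretransitive G Ω] (x : Ω)
    (hm : 2 ≤ Fintype.card α) (h3 : ∀ g ∈ stab G x, ¬ g.IsThreeCycle) :
    ((Fintype.card α + 1) / 2).factorial ≤ 2 * Fintype.card Ω := by
  have hnon : Nontrivial α := Fintype.one_lt_card_iff_nontrivial.1 hm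
  have h1 := bochert (stab G x) h3
  have h2 : Nat.card (stab G x) = Nat.card (stabilizer G x) :=
    Nat.card_congr (Subgroup.equivMapOfInjective _ _ G.subtype_injective).symm.toEquiv
  have h4 : (stabilizer G x).index = Fintype.card Ω := by
    rw [index_stabilizer_of_transitive, Nat.card_eq_fintype_card]
  have h5 : (stabilizer G x).index * Nat.card (stabilizer G x) = Nat.card G :=
    Subgroup.index_mul_card _
  have h6 : (Fintype.card α).factorial ≤ 2 * Nat.card G := by
    have e1 := two_mul_nat_card_alternatingGroup (α := α)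
    rw [Nat.card_perm, Nat.card_eq_fintype_card (α := α)] at e1
    rw [← e1]
    refine Nat.mul_le_mul_left 2 ?_
    exact Nat.card_le_card_of_injective _ (Subgroup.inclusion_injective hG)
  have hpos : 0 < Nat.card (stabilizer G x) := Nat.card_pos
  rw [h2] at h1
  rw [← h5, h4] at h6
  have h7 : Nat.card (stabilizer G x) * ((Fintype.card α + 1) / 2).factorial ≤
      Nat.card (stabilizer G x) * (2 * Fintype.card Ω) := by
    calc Nat.card (stabilizer G x) * ((Fintype.card α + 1) / 2).factorial
        ≤ (Fintype.card α).factorial := h1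
      _ ≤ 2 * (Fintype.card Ω * Nat.card (stabilizer G x)) := h6
      _ = Nat.card (stabilizer G x) * (2 * Fintype.card Ω) := by ring
  exact Nat.le_of_mul_le_mul_left h7 hpos

/-- If the stabilizers contain the alternating group then `n ≤ 2`. -/
lemma card_le_two_of_alt [MulAction.IsPretransitive G Ω] (x : Ω)
    (hm : 2 ≤ Fintype.card α) (hA : alternatingGroup α ≤ stab G x) : Fintype.card Ω ≤ 2 := by
  have hnon : Nontrivial α := Fintype.one_lt_card_iff_nontrivial.1 hm
  have h2 : Nat.card (stab G x) = Nat.card (stabilizer G x) :=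
    Nat.card_congr (Subgroup.equivMapOfInjective _ _ G.subtype_injective).symm.toEquiv
  have h4 : (stabilizer G x).index = Fintype.card Ω := by
    rw [index_stabilizer_of_transitive, Nat.card_eq_fintype_card]
  have h5 : (stabilizer G x).index * Nat.card (stabilizer G x) = Nat.card G :=
    Subgroup.index_mul_card _
  have h6 : Nat.card G ≤ Nat.card (Equiv.Perm α) :=
    Nat.card_le_card_of_injective _ Subtype.val_injective
  have h7 : Nat.card (Equiv.Perm α) ≤ 2 * Nat.card (stabilizer G x) := by
    rw [← two_mul_nat_card_alternatingGroup (α := α), ← h2]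
    exact Nat.mul_le_mul_left 2 (Nat.card_le_card_of_injective _ (Subgroup.inclusion_injective hA))
  have hpos : 0 < Nat.card (stabilizer G x) := Nat.card_pos
  have h8 : Fintype.card Ω * Nat.card (stabilizer G x) ≤ 2 * Nat.card (stabilizer G x) := by
    rw [← h4, h5]; exact h6.trans h7
  exact Nat.le_of_mul_le_mul_right h8 hpos

end SpreadPerm
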