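import Pool.Agent.Lib.MP_e6ed9e_al.Sym.Bochert

/-!
A `t`-transitive permutation group of degree `m` that does not contain the alternating group
satisfies `3 t ≤ m + 6`.
-/

namespace SpreadPerm

open Finset Equiv.Perm MulAction

variable {α : Type*} [Fintype α] [DecidableEq α]

omit [DecidableEq α] in
/-- In a `t`-transitive group one can fix fewer than `t` points and move another one anywhere. -/
lemma exists_fix_move (H : Subgroup (Equiv.Perm α)) (t : ℕ) (htm : t ≤ Fintype.card α)
    (hH : IsMultiplyPretransitive H α t) (T : Finset α) (hT : T.card + 1 ≤ t) (b c : α)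
    (hb : b ∉ T) (hc : c ∉ T) : ∃ x ∈ H, (∀ y ∈ T, x y = y) ∧ x b = c := by
  have hH' : IsMultiplyPretransitive H α (T.card + 1) :=
    isMultiplyPretransitive_of_le (n := t) hT (by rwa [Nat.card_eq_fintype_card])
  let e := T.equivFin.symm
  have hinj : ∀ z, z ∉ T → Function.Injective
      (Fin.cons z (fun i => (e i : α)) : Fin (T.card + 1) → α) := by
    intro z hz
    rw [Fin.cons_injective_iff]
    refine ⟨?_, fun i j hij => e.injective (Subtype.ext hij)⟩
    rintro ⟨i, hi⟩
    apply hz
    rw [← hi]
    exact (e i).2
  obtain ⟨x, hx⟩ := hH'.exists_smul_eq ⟨_, hinj b hb⟩ ⟨_, hinj c hc⟩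
  refine ⟨x, x.2, ?_, ?_⟩
  · intro y hy
    have h1 := DFunLike.congr_fun hx (Fin.succ (e.symm ⟨y, hy⟩))
    have h2 : (x : Equiv.Perm α) ((e (e.symm ⟨y, hy⟩) : T) : α) = ((e (e.symm ⟨y, hy⟩) : T) : α) :=
      h1
    rw [Equiv.apply_symm_apply] at h2
    exact h2
  · have h1 := DFunLike.congr_fun hx 0
    exact h1

/-- Subsets of the support that `g` maps almost into themselves. -/
lemma exists_almost_invariant (g : Equiv.Perm α) (r : ℕ) (hr : r ≤ g.support.card) :
    ∃ T ⊆ g.support, T.card = r ∧ (T.image g \ T).card ≤ 1 := by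
  induction r with
  | zero => exact ⟨∅, by simp, rfl, by simp⟩
  | succ r ih =>
    obtain ⟨T, hTs, hTc, hT1⟩ := ih (by omega)
    by_cases h0 : T.image g \ T = ∅
    · -- add any new point
      have hlt : T ⊂ g.support := by
        rw [Finset.ssubset_iff_subset_ne]
        refine ⟨hTs, ?_⟩
        rintro rfl
        omega
      obtain ⟨b, hb, hbT⟩ := Finset.exists_of_ssubset hlt
      refine ⟨insert b T, Finset.insert_subset hb hTs, by
        rw [Finset.card_insert_of_notMem hbT, hTc], ?_⟩
      have : (insert b T).image g \ insert b T ⊆ {g b} := by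
        intro y hy
        rw [Finset.mem_sdiff, Finset.mem_image] at hy
        obtain ⟨⟨z, hz, rfl⟩, hy2⟩ := hy
        rcases Finset.mem_insert.1 hz with rfl | hz
        · exact Finset.mem_singleton_self _
        · exfalso
          apply hy2
          refine Finset.mem_insert_of_mem ?_
          have := Finset.sdiff_eq_empty_iff_subset.1 h0
          exact this (Finset.mem_image_of_mem _ hz)
      exact (Finset.card_le_card this).trans (by simp)
    · obtain ⟨b, hb⟩ := Finset.nonempty_iff_ne_empty.2 h0
      have hb' := Finset.mem_sdiff.1 hb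
      obtain ⟨a, ha, hab⟩ := Finset.mem_image.1 hb'.1
      have hbs : b ∈ g.support := by
        rw [← hab]
        rw [Equiv.Perm.mem_support]
        intro e
        have := g.injective e
        exact (Equiv.Perm.mem_support.1 (hTs ha)) this
      refine ⟨insert b T, Finset.insert_subset hbs hTs, by
        rw [Finset.card_insert_of_notMem hb'.2, hTc], ?_⟩
      have hone : ∀ y, y ∈ T.image g \ T → y = b := by
        intro y hy
        exact Finset.card_le_one.1 hT1 y hy b hb
      have : (insert b T).image g \ insert b T ⊆ {g b} := by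
        intro y hy
        rw [Finset.mem_sdiff, Finset.mem_image] at hy
        obtain ⟨⟨z, hz, rfl⟩, hy2⟩ := hy
        rcases Finset.mem_insert.1 hz with rfl | hz
        · exact Finset.mem_singleton_self _
        · exfalso
          apply hy2
          by_cases hgz : g z ∈ T
          · exact Finset.mem_insert_of_mem hgz
          · rw [hone (g z) (Finset.mem_sdiff.2 ⟨Finset.mem_image_of_mem _ hz, hgz⟩)]
            exact Finset.mem_insert_self _ _
      exact (Finset.card_le_card this).trans (by simp)

/-- Subsets of the support that `g` maps into themselves up to exactly one point. -/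
lemma exists_one_exit (g : Equiv.Perm α) (r : ℕ) (_ : 1 ≤ r) (hr : r + 1 ≤ g.support.card) :
    ∃ T ⊆ g.support, r ≤ T.card ∧ T.card ≤ r + 1 ∧ (T.image g \ T).card = 1 := by
  obtain ⟨T, hTs, hTc, hT1⟩ := exists_almost_invariant g r (by omega)
  by_cases h0 : T.image g \ T = ∅
  · have hlt : T ⊂ g.support := by
      rw [Finset.ssubset_iff_subset_ne]
      refine ⟨hTs, ?_⟩
      rintro rfl
      omega
    obtain ⟨b, hb, hbT⟩ := Finset.exists_of_ssubset hlt
    have hsub := Finset.sdiff_eq_empty_iff_subset.1 h0
    have himg : T.image g = T :=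
      Finset.eq_of_subset_of_card_le hsub (by rw [Finset.card_image_of_injective _ g.injective])
    refine ⟨insert b T, Finset.insert_subset hb hTs, ?_, ?_, ?_⟩
    · rw [Finset.card_insert_of_notMem hbT]; omega
    · rw [Finset.card_insert_of_notMem hbT]; omega
    · have : (insert b T).image g \ insert b T = {g b} := by
        ext y
        rw [Finset.mem_sdiff, Finset.mem_image, Finset.mem_singleton]
        constructor
        · rintro ⟨⟨z, hz, rfl⟩, hy2⟩
          rcases Finset.mem_insert.1 hz with rfl | hz
          · rfl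
          · exfalso
            apply hy2
            exact Finset.mem_insert_of_mem (hsub (Finset.mem_image_of_mem _ hz))
        · rintro rfl
          refine ⟨⟨b, Finset.mem_insert_self _ _, rfl⟩, ?_⟩
          intro hmem
          rcases Finset.mem_insert.1 hmem with h | h
          · exact (Equiv.Perm.mem_support.1 hb) h
          · rw [← himg] at h
            obtain ⟨z, hz, hzb⟩ := Finset.mem_image.1 h
            rw [g.injective hzb] at hz
            exact hbT hz
      rw [this, Finset.card_singleton]
  · refine ⟨T, hTs, by omega, by omega, ?_⟩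
    have := Finset.card_pos.2 (Finset.nonempty_iff_ne_empty.2 h0)
    omega

/-- **The transitivity bound.** -/
theorem trans_bound (H : Subgroup (Equiv.Perm α)) (t : ℕ) (ht : 3 ≤ t)
    (htm : t + 1 ≤ Fintype.card α) (hH : IsMultiplyPretransitive H α t)
    (hA : ¬ alternatingGroup α ≤ H) : 3 * t ≤ Fintype.card α + 6 := by
  have h2 : IsMultiplyPretransitive H α 2 :=
    isMultiplyPretransitive_of_le (n := t) (by omega) (by rw [Nat.card_eq_fintype_card]; omega)
  have hprim : IsPreprimitive H α := isPreprimitive_of_is_two_pretransitive h2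
  -- an element that fixes `t - 1` points
  obtain ⟨T0, -, hT0⟩ := Finset.exists_subset_card_eq (s := (Finset.univ : Finset α))
    (n := t - 1) (by rw [Finset.card_univ]; omega)
  have hc2 : 1 < (T0ᶜ).card := by rw [Finset.card_compl]; omega
  obtain ⟨b0, hb0, c0, hc0, hbc0⟩ := Finset.one_lt_card.1 hc2
  rw [Finset.mem_compl] at hb0 hc0
  obtain ⟨x0, hx0H, hx0fix, hx0b⟩ := exists_fix_move H t (by omega) hH T0 (by omega) b0 c0 hb0 hc0
  have hx0ne : x0 ≠ 1 := by
    rintro rfl
    exact hbc0 hx0b
  have hx0supp : x0.support.card ≤ Fintype.card α - (t - 1) := by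
    have : x0.support ⊆ T0ᶜ := by
      intro y hy
      rw [Finset.mem_compl]
      intro hyT
      exact (Equiv.Perm.mem_support.1 hy) (hx0fix y hyT)
    calc x0.support.card ≤ (T0ᶜ).card := Finset.card_le_card this
      _ = Fintype.card α - (t - 1) := by rw [Finset.card_compl, hT0]
  -- an element of minimal support
  have hex : ∃ d, ∃ g ∈ H, g ≠ 1 ∧ g.support.card = d := ⟨_, x0, hx0H, hx0ne, rfl⟩
  classical
  obtain ⟨g, hgH, hgne, hgd⟩ := Nat.find_spec hex
  have hmin : ∀ h ∈ H, h ≠ 1 → g.support.card ≤ h.support.card := by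
    intro h hh hne
    rw [hgd]
    exact Nat.find_min' hex ⟨h, hh, hne, rfl⟩
  set d := g.support.card with hd
  have hdle : d ≤ Fintype.card α - (t - 1) := (hmin x0 hx0H hx0ne).trans hx0supp
  have hd4 : 4 ≤ d := by
    have h1 : 1 < d := Equiv.Perm.one_lt_card_support_of_ne_one hgne
    by_contra hlt
    have h23 : d = 2 ∨ d = 3 := by omega
    rcases h23 with h | h
    · have hsw : g.IsSwap := Equiv.Perm.card_support_eq_two.1 h
      have := subgroup_eq_top_of_isPreprimitive_of_isSwap_mem hprim g hsw hgH
      apply hA
      rw [this]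
      exact le_top
    · have h3 : g.IsThreeCycle := card_support_eq_three_iff.1 h
      exact hA (alternatingGroup_le_of_isPreprimitive_of_isThreeCycle_mem hprim h3 hgH)
  -- the set `T`
  obtain ⟨T, hTs, hT1, hT2, hTex⟩ := exists_one_exit g (min (t - 2) (d - 1)) (by omega) (by omega)
  obtain ⟨b, hb⟩ := Finset.card_eq_one.1 hTex
  have hbm : b ∈ T.image g \ T := by rw [hb]; exact Finset.mem_singleton_self _
  rw [Finset.mem_sdiff, Finset.mem_image] at hbm
  obtain ⟨⟨a, haT, hab⟩, hbT⟩ := hbm
  have hTlt : T.card + 2 ≤ Fintype.card α := by omega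
  obtain ⟨c, hc⟩ : ∃ c, c ∉ insert b T := by
    by_contra hcon
    push Not at hcon
    have : (insert b T) = Finset.univ := Finset.eq_univ_iff_forall.2 hcon
    have h1 : (insert b T).card = Fintype.card α := by rw [this, Finset.card_univ]
    rw [Finset.card_insert_of_notMem hbT] at h1
    omega
  rw [Finset.mem_insert, not_or] at hc
  obtain ⟨x, hxH, hxfix, hxb⟩ := exists_fix_move H t (by omega) hH T (by omega) b c hbT hc.2
  -- the commutator
  set h := g⁻¹ * (x * g * x⁻¹) with hh
  have hhH : h ∈ H := H.mul_mem (H.inv_mem hgH) (H.mul_mem (H.mul_mem hxH hgH) (H.inv_mem hxH))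
  have hxinv : ∀ y ∈ T, x⁻¹ y = y := fun y hy => by
    rw [Equiv.Perm.inv_eq_iff_eq, hxfix y hy]
  have hha : h a ≠ a := by
    rw [hh]
    simp only [Equiv.Perm.mul_apply]
    rw [hxinv a haT, hab, hxb]
    intro e
    rw [Equiv.Perm.inv_eq_iff_eq, hab] at e
    exact hc.1 e
  have hhne : h ≠ 1 := fun e => hha (by rw [e]; rfl)
  have hhfix : ∀ y ∈ T.erase a, h y = y := by
    intro y hy
    rw [Finset.mem_erase] at hy
    have hgy : g y ∈ T := by
      by_contra hn
      have : g y ∈ T.image g \ T := Finset.mem_sdiff.2 ⟨Finset.mem_image_of_mem _ hy.2, hn⟩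
      rw [hb, Finset.mem_singleton, ← hab] at this
      exact hy.1 (g.injective this)
    rw [hh]
    simp only [Equiv.Perm.mul_apply]
    rw [hxinv y hy.2, hxfix _ hgy]
    exact pinv_apply g y
  -- support estimate
  have hsub : h.support ⊆ (g.support ∪ g.support.image x) \ T.erase a := by
    intro y hy
    rw [Finset.mem_sdiff]
    constructor
    · rw [Finset.mem_union]
      by_contra hn
      rw [not_or, Equiv.Perm.notMem_support] at hn
      apply Equiv.Perm.mem_support.1 hy
      have h1 : g (x⁻¹ y) = x⁻¹ y := by
        by_contra hne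
        apply hn.2
        rw [Finset.mem_image]
        exact ⟨x⁻¹ y, Equiv.Perm.mem_support.2 hne, papply_inv x y⟩
      rw [hh]
      simp only [Equiv.Perm.mul_apply]
      rw [h1, papply_inv, Equiv.Perm.inv_eq_iff_eq]
      exact hn.1.symm
    · intro hmem
      exact Equiv.Perm.mem_support.1 hy (hhfix y hmem)
  have hTi : T ⊆ g.support ∩ g.support.image x := by
    intro y hy
    rw [Finset.mem_inter, Finset.mem_image]
    exact ⟨hTs hy, y, hTs hy, hxfix y hy⟩
  have hunion : (g.support ∪ g.support.image x).card + T.card ≤ 2 * d := by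
    have h1 := Finset.card_union_add_card_inter g.support (g.support.image x)
    rw [Finset.card_image_of_injective _ x.injective] at h1
    have h2 := Finset.card_le_card hTi
    omega
  have hsupp : h.support.card + (T.card - 1) ≤ (g.support ∪ g.support.image x).card := by
    have h1 := Finset.card_le_card hsub
    have h2 : T.erase a ⊆ g.support ∪ g.support.image x := by
      intro y hy
      exact Finset.mem_union_left _ (hTs (Finset.mem_of_mem_erase hy))
    rw [Finset.card_sdiff_of_subset h2, Finset.card_erase_of_mem haT] at h1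
    have h3 := Finset.card_le_card h2
    rw [Finset.card_erase_of_mem haT] at h3
    omega
  have hTpos : 1 ≤ T.card := Finset.card_pos.2 ⟨a, haT⟩
  have := hmin h hhH hhne
  omega

end SpreadPerm
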